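import Pool.Agent.H16.PN.Core

/-!
# The cone of curves: the genus of the possible further extremal rays and the pencils of lines

Let `p 1, …, p n`, `n ≥ 4`, be very general points of the complex projective plane and `X` the
blow-up. The closed cone of curves is contained in the closed convex cone spanned by the positive
cone, the classes of the `(-1)`-curves, and the classes `(d; w)` of the irreducible curves `C` with
`C ^ 2 < 0 < K C` which satisfy the following.

1. `b ≥ 2` and `K C - C ^ 2 ≤ (b - 1) (2 (d - w p) - b)` for every point `p` and every bound `b` for the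
   multiplicities of `C` at the other points with `w p + b ≤ d + 1`. So for given `d - w p` and
   given `b` the genus is bounded, whatever `d`, `w p` and the number of the points are.
2. Quadratic transformations carry `C` to an irreducible curve `C1` (at very general points) with a
   standard class `(d1; w1)`, `d1 ≤ d`, `w1 ≤ w`, the same `K C` and `C ^ 2`, and

     `K C - C ^ 2 ≤ (b - 1) (2 (d1 - A) - b)`, `b ≥ 2`,

   where `A` is the largest and `b` the tenth largest of its multiplicities. The same holds for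
   `A = w1 p` and any `b` with `w1 p + b ≤ d1 + 1` which bounds the multiplicities of `C1` outside of a
   set of points which contains `p` and where they have a sum `≤ 3 d1`.

Question Q1 asks whether these curves may be omitted. The bound of `TenthMultiplicityRays` for the
genus is of the order `A b log b`; this one is of the order `(d1 - A) b`, it has no logarithm and does
not grow with the largest multiplicity for fixed `d1 - A`.

The proof is that of `MP_d3128a_ag`, `PencilWindow`, applied to the system of the curve `C`, which has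
`h⁰ = 1` and `h¹ = (K C - C ^ 2) / 2`: the restrictions of the systems `C + j (H - E p)` to a general line
through `p` grow with `j` until they are complete, and this happens after at most `b - 1` steps.
-/

set_option autoImplicit false

namespace Pool.Agent.Results.MP_309968_ag.PencilRays

open MvPolynomial Pool.Agent.TH167 Pool.Agent.TH167.SHDefs

/-- The class of degree `d` and multiplicities `w` in the real vector space of classes. -/
def cls {n : ℕ} (d : ℕ) (w : Fin n → ℕ) : ℝ × (Fin n → ℝ) := ((d : ℝ), fun i => (w i : ℝ))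

/-- The classes of the exceptional curves `E i`. -/
def exceptional (n : ℕ) : Set (ℝ × (Fin n → ℝ)) :=
  {v | ∃ i : Fin n, v = ((0 : ℝ), (Pi.single i (-1 : ℝ) : Fin n → ℝ))}

/-- The classes of the irreducible curves on the blow-up. -/
def curveClasses {n : ℕ} (p : Fin n → Fin 2 → ℂ) : Set (ℝ × (Fin n → ℝ)) :=
  {v | ∃ (G : MvPolynomial (Fin 3) ℂ) (d : ℕ) (w : Fin n → ℕ), Curve p G d w ∧ v = cls d w} ∪
    exceptional n

/-- The classes of the `(-1)`-curves on the blow-up. -/
def minusOneClasses {n : ℕ} (p : Fin n → Fin 2 → ℂ) : Set (ℝ × (Fin n → ℝ)) :=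
  {v | ∃ (G : MvPolynomial (Fin 3) ℂ) (d : ℕ) (w : Fin n → ℕ), MinusOne p G d w ∧ v = cls d w} ∪
    exceptional n

/-- The positive cone. -/
def positiveCone (n : ℕ) : Set (ℝ × (Fin n → ℝ)) :=
  {v | 0 ≤ v.1 ∧ ∑ i, v.2 i ^ 2 ≤ v.1 ^ 2}

/-- The closed convex cone spanned by a set of classes. -/
def closedCone {n : ℕ} (S : Set (ℝ × (Fin n → ℝ))) : Set (ℝ × (Fin n → ℝ)) :=
  closure (Submodule.span {c : ℝ // 0 ≤ c} S : Set (ℝ × (Fin n → ℝ)))

/-- Standard classes: the sum of the three largest multiplicities is at most the degree. -/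
def Standard {n : ℕ} (d : ℕ) (w : Fin n → ℕ) : Prop :=
  ∀ i j k, i ≠ j → i ≠ k → j ≠ k → w i + w j + w k ≤ d

/-- The `(k + 1)`-th largest multiplicity: the least `b` such that at most `k` of the multiplicities
are larger than `b`. -/
noncomputable def nth {n : ℕ} (k : ℕ) (w : Fin n → ℕ) : ℕ :=
  sInf {b : ℕ | (Finset.univ.filter fun i => b < w i).card ≤ k}

/-- The bound for `x = K C - C ^ 2` in terms of `e = d - w p` and of a bound `b` for the other
multiplicities. -/
def Pencil (x e : ℤ) (b : ℕ) : Prop := 2 ≤ b ∧ x ≤ ((b : ℤ) - 1) * (2 * e - b)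

/-- The restrictions on the class `(d; w)` of a negative curve which is not a `(-1)`-curve; `VG` are
the very general point sets. -/
structure Remaining {n : ℕ} (VG : (Fin n → Fin 2 → ℂ) → Prop) (d : ℕ) (w : Fin n → ℕ) :
    Prop where
  neg : inter d w d w < 0
  can : 0 < interK d w
  lines : ∀ (p : Fin n) (b : ℕ), (∀ i, i ≠ p → w i ≤ b) → w p + b ≤ d + 1 →
    Pencil (interK d w - inter d w d w) (d - w p) b
  form : ∃ (p1 : Fin n → Fin 2 → ℂ) (d1 : ℕ) (w1 : Fin n → ℕ) (C1 : MvPolynomial (Fin 3) ℂ),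
    VG p1 ∧ Curve p1 C1 d1 w1 ∧ Relation.ReflTransGen Quadratic (d, w) (d1, w1) ∧
    Standard d1 w1 ∧ d1 ≤ d ∧ (∀ i, w1 i ≤ w i) ∧
    inter d1 w1 d1 w1 = inter d w d w ∧ interK d1 w1 = interK d w ∧
    Pencil (interK d w - inter d w d w) (d1 - nth 0 w1) (nth 9 w1) ∧
    ∀ (T : Finset (Fin n)) (p : Fin n) (b : ℕ), p ∈ T → ∑ i ∈ T, w1 i ≤ 3 * d1 →
      (∀ i, i ∉ T → w1 i ≤ b) → w1 p + b ≤ d1 + 1 →
      Pencil (interK d w - inter d w d w) (d1 - w1 p) b

theorem pencil_of {x e : ℤ} {h1 : ℤ} {b : ℕ} (hx : x = 2 * h1)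
    (h : Pool.Agent.H16.PN.Pencil 1 h1 e b) : Pencil x e b := by
  obtain ⟨k0, k1⟩ := h
  refine ⟨k0, ?_⟩
  rw [hx]
  push_cast at k1
  linarith

theorem chi_rel {n : ℕ} (d : ℕ) (w : Fin n → ℕ) :
    interK d w - inter d w d w = 2 * (((1 : ℕ) : ℤ) - SH.chi d w) := by
  rw [SH.inter_eq, SH.interK_eq]
  have := SH.two_chi d w
  push_cast
  linarith

theorem result (n : ℕ) (hn : 4 ≤ n) :
    ∃ f : ℕ → MvPolynomial (Fin n × Fin 2) ℂ, (∀ k, f k ≠ 0) ∧
      ∀ p : Fin n → Fin 2 → ℂ,
        (∀ k, MvPolynomial.eval (fun q : Fin n × Fin 2 => p q.1 q.2) (f k) ≠ 0) →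
        closedCone (curveClasses p) ⊆
          closedCone (positiveCone n ∪ minusOneClasses p ∪
            {v | ∃ (G : MvPolynomial (Fin 3) ℂ) (d : ℕ) (w : Fin n → ℕ), Curve p G d w ∧
              v = cls d w ∧
              Remaining (fun p1 => ∀ k,
                MvPolynomial.eval (fun q : Fin n × Fin 2 => p1 q.1 q.2) (f k) ≠ 0) d w}) := by
  classical
  obtain ⟨Z, hZ, h⟩ := SH.exists_fam (Fin n × Fin 2)
  refine ⟨Z, hZ, fun p hp0 => closure_mono (Submodule.span_mono ?_)⟩
  have hp := (h _).1 hp0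
  rintro v (⟨C, d, w, hC, rfl⟩ | hv)
  swap
  · exact Or.inl (Or.inr (Or.inr hv))
  by_cases hpos : 0 ≤ inter d w d w
  · refine Or.inl (Or.inl ⟨Nat.cast_nonneg _, ?_⟩)
    have h1 : ((inter d w d w : ℤ) : ℝ) = (d : ℝ) * d - ∑ i, (w i : ℝ) * w i := by
      unfold inter
      push_cast
      rfl
    have h2 : (0 : ℝ) ≤ ((inter d w d w : ℤ) : ℝ) := by exact_mod_cast hpos
    show ∑ i, (w i : ℝ) ^ 2 ≤ (d : ℝ) ^ 2
    simp only [sq]
    linarith
  push Not at hpos
  by_cases hM : MinusOne p C d w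
  · exact Or.inl (Or.inr (Or.inl ⟨C, d, w, hM, rfl⟩))
  refine Or.inr ⟨C, d, w, hC, rfl, ?_⟩
  obtain ⟨hK0, P1, d1, w1, C1, a1, a2, a3, a4, a5, a6, a7, a8, a9, -⟩ :=
    Pool.Agent.Q310.FP.neg_rem hn (R := fun _ _ => True) (fun _ _ _ => Or.inr trivial) hp hC hpos hM
  -- the curve itself
  have hg0 : Pool.Agent.K4H28.SP.gd w d = 1 := by
    rw [← Pool.Agent.K4H51.PTM.vs_gd hp w d]
    exact Pool.Agent.H16.PN.neg_dim (SH.inj_of_alg hp) hC hpos
  have hx0 := chi_rel d w
  have hne0 : (Pool.Agent.K4H28.SP.gd w d : ℤ) ≠ SH.chi d w := by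
    rw [hg0]
    intro h0
    push_cast at h0
    rw [← h0] at hx0
    push_cast at hx0
    omega
  have hwd : ∀ i, w i ≤ d := fun i => by
    obtain ⟨c1, c2, c3⟩ := SH.curve_iff.1 hC
    exact SH.van_le c1.ne_zero c2 (c3 i).1
  -- the standard form
  have hg1 : Pool.Agent.K4H28.SP.gd w1 d1 = 1 := by
    rw [← Pool.Agent.K4H51.PTM.vs_gd a1 w1 d1]
    exact Pool.Agent.H16.PN.neg_dim (SH.inj_of_alg a1) a2 (by rw [a7]; exact hpos)
  have hx1 : interK d w - inter d w d w = 2 * (((1 : ℕ) : ℤ) - SH.chi d1 w1) := by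
    rw [← a7, ← a8]
    exact chi_rel d1 w1
  have hne1 : (Pool.Agent.K4H28.SP.gd w1 d1 : ℤ) ≠ SH.chi d1 w1 := by
    rw [hg1]
    intro h0
    push_cast at h0
    rw [← h0] at hx1
    push_cast at hx1
    omega
  refine ⟨hpos, hK0, fun i b hb hbd => ?_, P1, d1, w1, C1, (h _).2 a1, a2, a3, a4, a5, a6, a7, a8,
    ?_, fun T i b hi hT hb hbd => ?_⟩
  · have h5 := (Pool.Agent.H16.PN.one (d := d) hb hbd (hwd i) (le_of_eq hg0.symm)).1 hne0
    rw [hg0] at h5
    exact pencil_of hx0 h5
  · obtain ⟨i₀, hi₀, -⟩ := Pool.Agent.K4H51.PTM.exists_max (show 0 < n by omega) w1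
    have h5 := (Pool.Agent.H16.PN.tenth (d := d1) hn a4 (p := i₀) (fun i => by
      rw [hi₀]
      exact Pool.Agent.K4H51.PTM.le_nth_zero w1 i) (le_of_eq hg1.symm)).1 hne1
    rw [hg1, hi₀] at h5
    exact pencil_of hx1 h5
  · have h5 := (Pool.Agent.H16.PN.standard (d := d1) (by omega) a4 hi hT hb hbd
      (le_of_eq hg1.symm)).1 hne1
    rw [hg1] at h5
    exact pencil_of hx1 h5

end Pool.Agent.Results.MP_309968_ag.PencilRays
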