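import Pool.Graph.R_pool_sql_team_seeded_2aa45f1a.Q310.FP.Gen
import Pool.Agent.H51.SB.Win

/-!
# The cone of curves: the genus of the possible further extremal rays and the tenth multiplicity

Let `p 1, …, p n`, `n ≥ 4`, be very general points of the complex projective plane and `X` the
blow-up. For an irreducible curve `C` on `X`, of class `(d; w)`, let `A` be the largest and `b` the
tenth largest of its multiplicities. The closed cone of curves is contained in the closed convex
cone spanned by the positive cone, the classes of the `(-1)`-curves, and the classes of the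
irreducible curves `C` with `C ^ 2 < 0 < K C`, `b ≥ 2`,

  `K C - C ^ 2 ≤ A (b - 1) ^ 2` and `K C - C ^ 2 ≤ 2 (b - 1) (A + b) (1 + log⁺ ((b - 1) / 2))`;

in particular the arithmetic genus of `C` is at most `(b - 1) (A + b) (1 + log⁺ ((b - 1) / 2))`.
Moreover, quadratic transformations carry such a curve `C` to an irreducible curve `C1` (at very
general points) with a standard class `(d1; w1)`, `d1 ≤ d`, `w1 ≤ w`, the same `K C` and `C ^ 2`, and
these bounds and `(K C - C ^ 2) / 2 + Φ (1) ≤ b (b - 1) / 2 + Φ ((A - 1) (b - 1))` hold with the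
largest multiplicity `A` of `C1`, for its tenth largest multiplicity `b`, and also for every `b ≤ A`
which bounds the multiplicities of `C1` outside of a set of points where they have a sum `≤ 3 d1`.
Here `Φ (x) = (b - 1) x / 2` for `x ≤ X = 2 A + b - 1` and `Φ (x) = (b - 1) X (1 + log (x / X)) / 2`
for `x ≥ X`. Question Q1 asks whether these curves may be omitted.

Proof. For a standard class, if `m₁ + ⋯ + m_r ≤ 3 d`, the first `r` multiplicities impose
independent conditions (degeneration to a cuspidal cubic). Add the others one at a time. For a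
further general point `q` let `i k` be the dimension of the space of the binary symbols of degree
`k` which annihilate the leading forms of degree `k` at `q` of the curves of the system with
multiplicity `k` at `q`. A point of multiplicity `a` gives `T = i 0 + ⋯ + i (a - 1)` dependent
conditions, and lowers the dimension `h` by `S = a (a + 1) / 2 - T`. As the numbers `i` grow by at
least one in every step once they are positive, and those for the system with one more point of
multiplicity `A` by at least two in every step, as long as the annihilator is not everything,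
`2 T ≤ (a - 1) S` and `2 T h ≤ (a - 1) S (2 A + a - 1)`, so `T ≤ Φ (h) - Φ (h - S)`. For a negative
curve `h = 1` at the end, and `(K C - C ^ 2) / 2` is the number of the dependent conditions.
-/

set_option autoImplicit false

namespace Pool.Agent.Results.MP_309968_ag.TenthMultiplicityRays

open MvPolynomial Pool.Agent.TH167 Pool.Agent.TH167.SHDefs Pool.Agent.H51.SB.Win

/-- The class of degree `d` and multiplicities `w` in the real vector space of classes. -/
def cls {n : ℕ} (d : ℕ) (w : Fin n → ℕ) : ℝ × (Fin n → ℝ) := ((d : ℝ), fun i => (w i : ℝ))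

/-- The classes of the exceptional curves `E i`. -/
def exceptional (n : ℕ) : Set (ℝ × (Fin n → ℝ)) :=
  {v | ∃ i : Fin n, v = ((0 : ℝ), (Pi.single i (-1 : ℝ) : Fin n → ℝ))}

/-- The classes of the irreducible curves on the blow-up. -/
def curveClasses {n : ℕ} (p : Fin n → Fin 2 → ℂ) : Set (ℝ × (Fin n → ℝ)) :=
  {v | ∃ (G : MvPolynomial (Fin 3) ℂ) (d : ℕ) (w : Fin n → ℕ), Curve p G d w ∧ v = cls d w} ∪
    exceptional n

/-- The classes of the `(-1)`-curves on the blow-up. -/
def minusOneClasses {n : ℕ} (p : Fin n → Fin 2 → ℂ) : Set (ℝ × (Fin n → ℝ)) :=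
  {v | ∃ (G : MvPolynomial (Fin 3) ℂ) (d : ℕ) (w : Fin n → ℕ), MinusOne p G d w ∧ v = cls d w} ∪
    exceptional n

/-- The positive cone. -/
def positiveCone (n : ℕ) : Set (ℝ × (Fin n → ℝ)) :=
  {v | 0 ≤ v.1 ∧ ∑ i, v.2 i ^ 2 ≤ v.1 ^ 2}

/-- The closed convex cone spanned by a set of classes. -/
def closedCone {n : ℕ} (S : Set (ℝ × (Fin n → ℝ))) : Set (ℝ × (Fin n → ℝ)) :=
  closure (Submodule.span {c : ℝ // 0 ≤ c} S : Set (ℝ × (Fin n → ℝ)))

/-- Standard classes: the sum of the three largest multiplicities is at most the degree. -/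
def Standard {n : ℕ} (d : ℕ) (w : Fin n → ℕ) : Prop :=
  ∀ i j k, i ≠ j → i ≠ k → j ≠ k → w i + w j + w k ≤ d

/-- The bounds for `x = K C - C ^ 2`. -/
def Genus (x : ℤ) (A b : ℕ) : Prop :=
  2 ≤ b ∧ x ≤ (A : ℤ) * ((b : ℤ) - 1) ^ 2 ∧ (x : ℝ) ≤ 2 * bound A b

/-- The bound for `x = K C - C ^ 2` with the function `Φ`. -/
def GenusTrade (x : ℤ) (A b : ℕ) : Prop :=
  (x : ℝ) / 2 + potential A b 1 ≤
    (b : ℝ) * (b - 1) / 2 + potential A b (((A : ℝ) - 1) * ((b : ℝ) - 1))

/-- The restrictions on the class `(d; w)` of a negative curve which is not a `(-1)`-curve; `VG` are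
the very general point sets. -/
structure Remaining {n : ℕ} (VG : (Fin n → Fin 2 → ℂ) → Prop) (d : ℕ) (w : Fin n → ℕ) :
    Prop where
  neg : inter d w d w < 0
  can : 0 < interK d w
  genus : Genus (interK d w - inter d w d w) (nth 0 w) (nth 9 w)
  form : ∃ (p1 : Fin n → Fin 2 → ℂ) (d1 : ℕ) (w1 : Fin n → ℕ) (C1 : MvPolynomial (Fin 3) ℂ),
    VG p1 ∧ Curve p1 C1 d1 w1 ∧ Relation.ReflTransGen Quadratic (d, w) (d1, w1) ∧
    Standard d1 w1 ∧ d1 ≤ d ∧ (∀ i, w1 i ≤ w i) ∧
    inter d1 w1 d1 w1 = inter d w d w ∧ interK d1 w1 = interK d w ∧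
    Genus (interK d w - inter d w d w) (nth 0 w1) (nth 9 w1) ∧
    GenusTrade (interK d w - inter d w d w) (nth 0 w1) (nth 9 w1) ∧
    ∀ (T : Finset (Fin n)) (b : ℕ), ∑ i ∈ T, w1 i ≤ 3 * d1 → (∀ i, i ∉ T → w1 i ≤ b) →
      b ≤ nth 0 w1 → Genus (interK d w - inter d w d w) (nth 0 w1) b ∧
        GenusTrade (interK d w - inter d w d w) (nth 0 w1) b

/-- The system of a negative curve consists of this curve. -/
theorem neg_dim {K : Type} [Field K] {s : ℕ} {P : Fin s → Fin 2 → K}
    (hP : Function.Injective P) {C : MvPolynomial (Fin 3) K} {e : ℕ} {u : Fin s → ℕ}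
    (hC : Curve P C e u) (hneg : inter e u e u < 0) :
    Module.finrank K ↥(W609.CR.VS (fun j => W609.CR.aff (P j)) u e) = 1 := by
  classical
  obtain ⟨h1, h2, h3⟩ := SH.curve_iff.1 hC
  have hmem : C ∈ W609.CR.VS (fun j => W609.CR.aff (P j)) u e :=
    (SH.mem_VS _ _ _ _).2 ⟨h2, fun j => (h3 j).1⟩
  have hfin := W609.CR.vs_fin (fun j => W609.CR.aff (P j)) u e
  refine le_antisymm ?_ (Module.finrank_pos_iff.2 ⟨⟨C, hmem⟩, 0, fun h7 => h1.ne_zero
    (congrArg Subtype.val h7)⟩)
  refine finrank_le_one (⟨C, hmem⟩ : ↥(W609.CR.VS (fun j => W609.CR.aff (P j)) u e)) fun f => ?_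
  obtain ⟨f, hf⟩ := f
  by_cases hf0 : f = 0
  · refine ⟨0, Subtype.ext ?_⟩
    show (0 : K) • C = f
    rw [hf0, zero_smul]
  have hf' := (SH.mem_VS _ _ _ _).1 hf
  have hdvd : C ∣ f := by
    by_contra hnd
    have h4 := SH.bez hP h1 h2 (fun j => (h3 j).1) hf0 hf'.1 hf'.2 hnd
    have h5 : (∑ j, (u j : ℤ) * u j) ≤ (e : ℤ) * e := by exact_mod_cast h4
    unfold inter at hneg
    linarith
  obtain ⟨H, rfl⟩ := hdvd
  have hH0 : H ≠ 0 := by
    rintro rfl
    exact hf0 (mul_zero _)
  have h5 : (C * H).totalDegree = e := hf'.1.totalDegree (mul_ne_zero h1.ne_zero hH0)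
  have h6 : C.totalDegree = e := h2.totalDegree h1.ne_zero
  rw [MvPolynomial.totalDegree_mul_of_isDomain h1.ne_zero hH0, h6] at h5
  have h7 : H.totalDegree = 0 := by omega
  rw [totalDegree_eq_zero_iff_eq_C] at h7
  refine ⟨coeff 0 H, Subtype.ext ?_⟩
  show coeff 0 H • C = C * H
  conv_rhs => rw [h7]
  rw [MvPolynomial.smul_eq_C_mul, mul_comm]

/-- From the bounds for `h⁰` and `h¹`. -/
theorem genus_of {x h1 : ℤ} {A b : ℕ} (hx : x = 2 * h1) (h : Small 1 h1 A b) : Genus x A b := by
  obtain ⟨k0, k1, k2, k3⟩ := h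
  refine ⟨k0, ?_, ?_⟩
  · rw [hx]
    push_cast at k2
    nlinarith
  · rw [hx]
    push_cast
    linarith

theorem trade_of {x h1 : ℤ} {A b : ℕ} (hx : x = 2 * h1) (h : Trade 1 h1 A b) :
    GenusTrade x A b := by
  unfold Trade at h
  unfold GenusTrade
  rw [hx]
  push_cast at h ⊢
  linarith

theorem result (n : ℕ) (hn : 4 ≤ n) :
    ∃ f : ℕ → MvPolynomial (Fin n × Fin 2) ℂ, (∀ k, f k ≠ 0) ∧
      ∀ p : Fin n → Fin 2 → ℂ,
        (∀ k, MvPolynomial.eval (fun q : Fin n × Fin 2 => p q.1 q.2) (f k) ≠ 0) →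
        closedCone (curveClasses p) ⊆
          closedCone (positiveCone n ∪ minusOneClasses p ∪
            {v | ∃ (G : MvPolynomial (Fin 3) ℂ) (d : ℕ) (w : Fin n → ℕ), Curve p G d w ∧
              v = cls d w ∧
              Remaining (fun p1 => ∀ k,
                MvPolynomial.eval (fun q : Fin n × Fin 2 => p1 q.1 q.2) (f k) ≠ 0) d w}) := by
  classical
  obtain ⟨Z, hZ, h⟩ := SH.exists_fam (Fin n × Fin 2)
  refine ⟨Z, hZ, fun p hp0 => closure_mono (Submodule.span_mono ?_)⟩
  have hp := (h _).1 hp0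
  rintro v (⟨C, d, w, hC, rfl⟩ | hv)
  swap
  · exact Or.inl (Or.inr (Or.inr hv))
  by_cases hpos : 0 ≤ inter d w d w
  · refine Or.inl (Or.inl ⟨Nat.cast_nonneg _, ?_⟩)
    have h1 : ((inter d w d w : ℤ) : ℝ) = (d : ℝ) * d - ∑ i, (w i : ℝ) * w i := by
      unfold inter
      push_cast
      rfl
    have h2 : (0 : ℝ) ≤ ((inter d w d w : ℤ) : ℝ) := by exact_mod_cast hpos
    show ∑ i, (w i : ℝ) ^ 2 ≤ (d : ℝ) ^ 2
    simp only [sq]
    linarith
  push Not at hpos
  by_cases hM : MinusOne p C d w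
  · exact Or.inl (Or.inr (Or.inl ⟨C, d, w, hM, rfl⟩))
  refine Or.inr ⟨C, d, w, hC, rfl, ?_⟩
  obtain ⟨hK0, P1, d1, w1, C1, a1, a2, a3, a4, a5, a6, a7, a8, a9, -⟩ :=
    Pool.Agent.Q310.FP.neg_rem hn (R := fun _ _ => True) (fun _ _ _ => Or.inr trivial) hp hC hpos hM
  have hg1 : Pool.Agent.K4H28.SP.gd w1 d1 = 1 := by
    rw [← Pool.Agent.K4H51.PTM.vs_gd a1 w1 d1]
    exact neg_dim (SH.inj_of_alg a1) a2 (by rw [a7]; exact hpos)
  have hchi : 2 * SH.chi d1 w1 = inter d1 w1 d1 w1 - interK d1 w1 + 2 := by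
    rw [SH.inter_eq, SH.interK_eq]
    have := SH.two_chi d1 w1
    linarith
  have hst := standard (u := w1) (e := d1) (by omega) a4 (le_of_eq hg1.symm) (by
    rw [hg1]
    intro h0
    push_cast at h0
    rw [a7, a8, ← h0] at hchi
    omega)
  rw [hg1] at hst
  have hx : interK d w - inter d w d w = 2 * (((1 : ℕ) : ℤ) - SH.chi d1 w1) := by
    rw [a7, a8] at hchi
    push_cast
    linarith
  refine ⟨hpos, hK0, ?_, P1, d1, w1, C1, (h _).2 a1, a2, a3, a4, a5, a6, a7, a8,
    genus_of hx hst.1.1, trade_of hx hst.1.2, fun T b hT hb hbA => ?_⟩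
  · exact genus_of hx (hst.1.1.mono (nth_mono 0 a6) (nth_mono 9 a6))
  · have := hst.2 T b hT hb hbA
    exact ⟨genus_of hx this.1, trade_of hx this.2⟩

end Pool.Agent.Results.MP_309968_ag.TenthMultiplicityRays
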